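import Pool.Agent.Helper25_CN2.Stmts
import Pool.Agent.Helper25_CON.PDLem
import Pool.Agent.Helper4_CON.GCla

/-!
Squad CN2, module J_AO: the old roots of A_n.
-/

noncomputable section

namespace Pool.Agent.CN2.H88

open Pool.Agent.H25Cong Pool.Agent.CON Pool.Agent.CN2

/-- the arithmetic core: psi = 0 unless all the coordinates in I are equal -/
lemma ao_core {ι : Type*} [DecidableEq ι] (I J : Finset ι) (_ : Disjoint I J) (t : ι → ℤ)
    (q T : ℤ) (hc : 4 ≤ I.card) (hT : T = ∑ i ∈ I, t i + ∑ i ∈ J, t i)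
    (hq : 2 * q = T * T + (∑ i ∈ I, t i * t i + ∑ i ∈ J, t i * t i))
    (hd : ∀ i ∈ I, ∀ j ∈ I, q ∣ t i - t j) (he : (2 : ℤ) ∣ ∑ i ∈ I, t i)
    (hne : ∃ i ∈ I, ∃ j ∈ I, t i ≠ t j) : ∑ i ∈ I, t i = 0 := by
  obtain ⟨i, hi, j, hj, hij⟩ := hne
  have hij' : i ≠ j := by rintro rfl; exact hij rfl
  set ψ := ∑ i ∈ I, t i with hψ
  set A := ∑ i ∈ I, t i * t i with hA
  set Bc := T * T + ∑ i ∈ J, t i * t i with hB
  have habs : ∀ x : ℤ, |x| ≤ x * x := by
    intro x
    rcases eq_or_ne x 0 with rfl | hx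
    · simp
    · have h1 : 1 ≤ |x| := Int.one_le_abs hx
      have h2 : |x| * |x| = x * x := abs_mul_abs_self x
      nlinarith
  have hA1 : |ψ| ≤ A := by
    refine (Finset.abs_sum_le_sum_abs _ _).trans ?_
    exact Finset.sum_le_sum fun i _ => habs _
  have hB1 : |ψ| ≤ Bc := by
    have h1 : ψ = T - ∑ i ∈ J, t i := by rw [hT]; ring
    have h2 : |∑ i ∈ J, t i| ≤ ∑ i ∈ J, t i * t i :=
      (Finset.abs_sum_le_sum_abs _ _).trans (Finset.sum_le_sum fun i _ => habs _)
    have h3 := habs T
    have h4 : |T - ∑ i ∈ J, t i| ≤ |T| + |∑ i ∈ J, t i| := abs_sub _ _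
    rw [h1]
    linarith
  have hA2 : t i * t i + t j * t j ≤ A := by
    rw [hA, ← Finset.sum_pair hij' (f := fun i => t i * t i)]
    apply Finset.sum_le_sum_of_subset_of_nonneg
    · intro l hl
      simp only [Finset.mem_insert, Finset.mem_singleton] at hl
      rcases hl with rfl | rfl
      · exact hi
      · exact hj
    · intro l _ _
      exact mul_self_nonneg _
  have hqp : 0 ≤ q := by
    have : 0 ≤ T * T := mul_self_nonneg _
    have h1 : 0 ≤ ∑ i ∈ J, t i * t i := Finset.sum_nonneg fun i _ => mul_self_nonneg _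
    have h2 : 0 ≤ A := (abs_nonneg _).trans hA1
    linarith
  obtain ⟨c, hcq⟩ := hd i hi j hj
  have hc0 : c ≠ 0 := by
    rintro rfl
    apply hij
    linarith
  have hq0 : q ≠ 0 := by
    rintro rfl
    apply hij
    linarith
  have hc2 : 1 ≤ c * c := by
    have := mul_self_pos.mpr hc0
    omega
  have hqq : q * q ≤ 2 * A := by
    have h1 : (t i - t j) * (t i - t j) ≤ 2 * (t i * t i + t j * t j) := by
      nlinarith [mul_self_nonneg (t i + t j)]
    have h2 : (t i - t j) * (t i - t j) = q * q * (c * c) := by rw [hcq]; ring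
    have h3 : q * q * 1 ≤ q * q * (c * c) := mul_le_mul_of_nonneg_left hc2 (mul_self_nonneg _)
    linarith
  have hsum : 2 * q = A + Bc := by rw [hB]; linarith
  by_contra hψ0
  have hψ2 : 2 ≤ |ψ| := by
    obtain ⟨m, hm⟩ := he
    have hm0 : m ≠ 0 := by rintro rfl; exact hψ0 (by linarith)
    rw [hm, abs_mul]
    have : 1 ≤ |m| := Int.one_le_abs hm0
    norm_num
    linarith
  have hq2 : q = 2 := by
    have h1 : (q - 2) * (q - 2) ≤ 0 := by nlinarith
    have h2 : (q - 2) * (q - 2) = 0 := le_antisymm h1 (mul_self_nonneg _)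
    have h3 : q - 2 = 0 := mul_self_eq_zero.mp h2
    linarith
  have hA3 : A = 2 := by
    rw [hq2] at hsum
    have : 2 ≤ A := hψ2.trans hA1
    have : 2 ≤ Bc := hψ2.trans hB1
    linarith
  -- all t i, i in I, have the same parity
  rw [hq2] at hd
  by_cases hpar : (2 : ℤ) ∣ t i
  · have h4 : (4 : ℤ) ∣ A := by
      rw [hA]
      apply Finset.dvd_sum
      intro l hl
      have h5 : (2 : ℤ) ∣ t l := by
        have := hd l hl i hi
        have h6 := dvd_add this hpar
        rwa [sub_add_cancel] at h6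
      have := mul_dvd_mul h5 h5
      norm_num at this
      exact this
    rw [hA3] at h4
    norm_num at h4
  · have h4 : (4 : ℤ) ≤ A := by
      have h5 : ∀ l ∈ I, 1 ≤ t l * t l := by
        intro l hl
        have h6 : t l ≠ 0 := by
          intro h7
          apply hpar
          have := hd i hi l hl
          rwa [h7, sub_zero] at this
        have := mul_self_pos.mpr h6
        omega
      have h6 := Finset.card_nsmul_le_sum I (fun l => t l * t l) 1 h5
      rw [nsmul_eq_mul, mul_one] at h6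
      have : (4 : ℤ) ≤ (I.card : ℤ) := by exact_mod_cast hc
      exact this.trans h6
    omega

section frame

variable {M : Type} [AddCommGroup M] {b : M → M → ℤ} {C : Set M} {s : ℤ} {n : ℕ}
  {v : Fin n → M}

/-- coordinates with respect to a simplex frame -/
lemma a_coord (hA : ∀ α ∈ C, InA v α) : ∀ z ∈ AddSubgroup.closure C,
    ∃ t : Fin n → ℤ, z = ∑ i, t i • v i := by
  have hvi : ∀ i, v i = ∑ j, (Pi.single i 1 : Fin n → ℤ) j • v j := by
    intro i
    rw [Finset.sum_eq_single i]
    · simp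
    · intro j _ hj
      rw [Pi.single_eq_of_ne hj]; simp
    · intro h; exact absurd (Finset.mem_univ _) h
  intro z hz
  induction hz using AddSubgroup.closure_induction with
  | mem z hz =>
    rcases hA z hz with ⟨i, h | h⟩ | ⟨i, j, _, h⟩
    · exact ⟨Pi.single i 1, by rw [h]; exact hvi i⟩
    · refine ⟨- Pi.single i 1, ?_⟩
      rw [h]
      conv_lhs => rw [hvi i]
      rw [← Finset.sum_neg_distrib]
      exact Finset.sum_congr rfl fun j _ => by rw [Pi.neg_apply, neg_smul]
    · refine ⟨Pi.single i 1 - Pi.single j 1, ?_⟩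
      rw [h]
      conv_lhs => rw [hvi i, hvi j]
      rw [← Finset.sum_sub_distrib]
      exact Finset.sum_congr rfl fun l _ => by rw [Pi.sub_apply, sub_smul]
  | zero => exact ⟨0, by simp⟩
  | add x y _ _ hx hy =>
    obtain ⟨t, ht⟩ := hx
    obtain ⟨u, hu⟩ := hy
    refine ⟨t + u, ?_⟩
    rw [ht, hu, ← Finset.sum_add_distrib]
    exact Finset.sum_congr rfl fun l _ => by rw [Pi.add_apply, add_smul]
  | neg x _ hx =>
    obtain ⟨t, ht⟩ := hx
    refine ⟨-t, ?_⟩
    rw [ht, ← Finset.sum_neg_distrib]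
    exact Finset.sum_congr rfl fun l _ => by rw [Pi.neg_apply, neg_smul]

lemma a_prod (hb : PD b) (hC : Irr b C s) (hv : AFr b C s n v) (t : Fin n → ℤ) (j : Fin n) :
    b (∑ i, t i • v i) (v j) = s * (t j + ∑ i, t i) := by
  obtain ⟨hvC, hvs⟩ := hv
  rw [hb.sum_left]
  have : ∀ i, b (t i • v i) (v j) = s * t i + if i = j then s * t i else 0 := by
    intro i
    rw [hb.zsmul_left]
    split_ifs with h
    · rw [h, hC.norm _ (hvC j)]; ring
    · rw [hvs i j h]; ring
  rw [Finset.sum_congr rfl fun i _ => this i, Finset.sum_add_distrib, ← Finset.mul_sum,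
    Finset.sum_ite_eq' Finset.univ j]
  simp
  ring

lemma a_prod2 (hb : PD b) (hC : Irr b C s) (hv : AFr b C s n v) (t u : Fin n → ℤ) :
    b (∑ i, t i • v i) (∑ i, u i • v i) =
      s * ((∑ i, t i) * (∑ i, u i) + ∑ i, t i * u i) := by
  rw [hb.sum_right]
  have : ∀ i, b (∑ i, t i • v i) (u i • v i) = s * (t i * u i) + s * ((∑ i, t i) * u i) := by
    intro i
    rw [hb.zsmul_right, a_prod hb hC hv]; ring
  rw [Finset.sum_congr rfl fun i _ => this i, Finset.sum_add_distrib, ← Finset.mul_sum,
    ← Finset.mul_sum, ← Finset.mul_sum]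
  ring

/-- the sum over the first m coordinates -/
lemma sum_first (m : ℕ) (f : Fin n → ℤ) :
    ∑ i : Fin n, (if i.1 < m then f i else 0) = ∑ i ∈ Finset.univ.filter (fun i : Fin n => i.1 < m),
      f i := by
  rw [Finset.sum_filter]

end frame

theorem j_ao (_ : J_AX) : J_AO := by
  intro M _ b C s n m v w hb hC hs hv hA hm4 h4m hmn hw hw0 hxw hold
  obtain ⟨t, rfl⟩ := a_coord hA w hw
  have hvC := hv.1
  have hsp := hC.pos
  set T := ∑ i, t i with hTdef
  set I := Finset.univ.filter (fun i : Fin n => i.1 < m) with hI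
  set J := Finset.univ.filter (fun i : Fin n => ¬ i.1 < m) with hJ
  set ψ := ∑ i ∈ I, t i with hψ
  have hcard : I.card = m := by
    rw [hI]
    have h1 := CON.H4.xc_card (n := n) hmn 1
    rw [sum_first m (fun _ => (1 : ℤ))] at h1
    simp only [Finset.sum_const, nsmul_eq_mul, mul_one] at h1
    exact_mod_cast h1
  have hme : Even m := by
    obtain ⟨a, ha⟩ := h4m
    exact ⟨2 * a, by omega⟩
  have hsplit : ∀ f : Fin n → ℤ, ∑ i, f i = ∑ i ∈ I, f i + ∑ i ∈ J, f i := fun f =>
    (Finset.sum_filter_add_sum_filter_not Finset.univ _ _).symm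
  -- the product with wA
  have e1 : b (∑ i, t i • v i) (wA v m) = s * (n + 1) * ψ := by
    unfold wA
    rw [a_prod2 hb hC hv t]
    have h1 : ∑ i : Fin n, ((if (i : ℕ) < m then (n : ℤ) + 1 else 0) - m) = m := by
      rw [Finset.sum_sub_distrib, CON.H4.xc_card hmn]
      simp; ring
    have h2 : ∑ i : Fin n, t i * ((if (i : ℕ) < m then (n : ℤ) + 1 else 0) - m) =
        (n + 1) * ψ - m * T := by
      have : ∀ i : Fin n, t i * ((if (i : ℕ) < m then (n : ℤ) + 1 else 0) - m) =
          (if (i : ℕ) < m then ((n : ℤ) + 1) * t i else 0) - m * t i := by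
        intro i
        split_ifs <;> ring
      rw [Finset.sum_congr rfl fun i _ => this i, Finset.sum_sub_distrib,
        sum_first m (fun i => ((n : ℤ) + 1) * t i), ← Finset.mul_sum, ← Finset.mul_sum]
    rw [h1, h2]
    ring
  -- psi is even
  have hψe : (2 : ℤ) ∣ ψ := by
    unfold xA at hxw
    rw [a_prod2 hb hC hv] at hxw
    have h1 : ∑ i : Fin n, (if (i : ℕ) < m then (-1 : ℤ) ^ (i : ℕ) else 0) = 0 :=
      CON.H4.xc_sum hmn hme
    rw [h1, zero_mul, zero_add] at hxw
    have h2 : (2 : ℤ) ∣ ∑ i : Fin n, (if (i : ℕ) < m then (-1 : ℤ) ^ (i : ℕ) else 0) * t i := by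
      rcases Int.prime_two.dvd_or_dvd hxw with h | h
      · exact absurd h hs
      · exact h
    have h3 : (2 : ℤ) ∣ ∑ i : Fin n, (if (i : ℕ) < m then (-1 : ℤ) ^ (i : ℕ) else 0) * t i -
        ∑ i : Fin n, (if (i : ℕ) < m then t i else 0) := by
      rw [← Finset.sum_sub_distrib]
      apply Finset.dvd_sum
      intro i _
      split_ifs
      · rcases neg_one_pow_eq_or ℤ (i : ℕ) with h | h <;> rw [h]
        · simp
        · exact ⟨-t i, by ring⟩
      · simp
    rw [sum_first m t] at h3
    have h4 := dvd_sub h2 h3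
    rwa [sub_sub_cancel] at h4
  -- the norm
  have hww := a_prod2 hb hC hv t t
  have hso : ∃ u, s = 2 * u + 1 := by
    rcases Int.even_or_odd' s with ⟨u, hu | hu⟩
    · exact absurd ⟨u, hu⟩ hs
    · exact ⟨u, hu⟩
  obtain ⟨q, hq⟩ : ∃ q, T * T + ∑ i, t i * t i = 2 * q := by
    obtain ⟨c, hc⟩ := hb.even (∑ i, t i • v i)
    rw [hww] at hc
    obtain ⟨u, hu⟩ := hso
    refine ⟨c - u * (T * T + ∑ i, t i * t i), ?_⟩
    rw [hu] at hc
    linear_combination hc
  rw [e1]
  have goal4 : (4 : ℤ) ∣ ψ := by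
    by_cases hne : ∃ i ∈ I, ∃ j ∈ I, t i ≠ t j
    · have := ao_core I J (by
          rw [hI, hJ]; exact Finset.disjoint_filter_filter_not _ _ _) t q T
        (by rw [hcard]; exact hm4) (hsplit t) (by rw [← hq, hsplit fun i => t i * t i])
        (by
          intro i hi j hj
          by_cases hij : i = j
          · rw [hij, sub_self]; exact dvd_zero _
          have h1 := hold (v i - v j)
            (AddSubgroup.sub_mem _ (AddSubgroup.subset_closure (hvC i))
              (AddSubgroup.subset_closure (hvC j)))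
            (by
              unfold xA
              rw [hb.sub_right, a_prod hb hC hv, a_prod hb hC hv]
              have hi' : i.1 < m := by rw [hI] at hi; exact (Finset.mem_filter.mp hi).2
              have hj' : j.1 < m := by rw [hI] at hj; exact (Finset.mem_filter.mp hj).2
              rw [if_pos hi', if_pos hj', ← mul_sub]
              apply Dvd.dvd.mul_left
              have h5 : ∀ a c : ℤ, a + c - (1 + c) = a - 1 := fun a c => by ring
              rcases neg_one_pow_eq_or ℤ i.1 with h | h <;>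
                rcases neg_one_pow_eq_or ℤ j.1 with h' | h' <;> rw [h, h']
              · simp
              · exact ⟨1, by ring⟩
              · exact ⟨-1, by ring⟩
              · simp)
          rw [hww, hb.sub_right, a_prod hb hC hv, a_prod hb hC hv, ← hTdef, hq] at h1
          have h2 : s * 2 * q ∣ s * 2 * (t i - t j) := by
            refine dvd_trans (dvd_of_eq (by ring)) (dvd_trans h1 (dvd_of_eq (by ring)))
          exact (mul_dvd_mul_iff_left (mul_ne_zero hsp.ne' two_ne_zero)).mp h2)
        hψe hne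
      rw [hψ, this]; exact dvd_zero _
    · push Not at hne
      have hIne : I.Nonempty := by
        rw [← Finset.card_pos, hcard]; omega
      obtain ⟨i0, hi0⟩ := hIne
      have : ψ = m * t i0 := by
        rw [hψ, Finset.sum_congr rfl fun i hi => hne i hi i0 hi0, Finset.sum_const, hcard]
        simp
      rw [this]
      obtain ⟨a, ha⟩ := h4m
      exact ⟨a * t i0, by rw [ha]; push_cast; ring⟩
  obtain ⟨a, ha⟩ := goal4
  exact ⟨a, by rw [ha]; ring⟩

end Pool.Agent.CN2.H88

end
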