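import Pool.Agent.Helper88_CN2.XPar

/-!
Squad CN2, modules K_BME and K_MM3E.
-/

noncomputable section

namespace Pool.Agent.CN2.H88

open Pool.Agent.H25Cong Pool.Agent.CON Pool.Agent.CN2

variable {M : Type} [AddCommGroup M] {b : M → M → ℤ}

/-- a bound JB is a bound JR without information -/
lemma jr_of_jb {C : Set M} {x : M} {j : ℤ} (h : JB b C x j) :
    JR b (AddSubgroup.closure C) x j fun _ _ => True := by
  rintro t ρ ⟨⟨z, hz, rfl⟩, h1, h2, h3⟩
  exact ⟨h z hz ρ h1 h2 h3, fun _ => trivial⟩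

section ct

variable {k : ℕ} {C : Fin k → Set M} {s : Fin k → ℤ} {τ : Fin k → Ty}

/-- the summand complementary to the component i0 -/
def cpl (C : Fin k → Set M) (i0 : Fin k) : AddSubgroup M :=
  AddSubgroup.closure {y | ∃ i, i ≠ i0 ∧ y ∈ C i}

lemma cpl_sup (h : CT b C s τ) (i0 : Fin k) :
    AddSubgroup.closure (C i0) ⊔ cpl C i0 = ⊤ := by
  rw [eq_top_iff]
  intro x _
  refine (AddSubgroup.closure_le _).mpr ?_ (h.gen x)
  intro y hy
  obtain ⟨i, hi⟩ := Set.mem_iUnion.mp hy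
  by_cases e : i = i0
  · subst e
    exact AddSubgroup.mem_sup_left (AddSubgroup.subset_closure hi)
  · exact AddSubgroup.mem_sup_right (AddSubgroup.subset_closure ⟨i, e, hi⟩)

lemma cpl_orth (hb : PD b) (h : CT b C s τ) (i0 : Fin k) :
    ∀ y ∈ AddSubgroup.closure (C i0), ∀ z ∈ cpl C i0, b y z = 0 := by
  apply hb.closure_orth
  rintro x hx y ⟨i, hi, hy⟩
  exact h.orth i0 i (Ne.symm hi) x hx y hy

lemma mem_cpl {i0 i : Fin k} (hi : i ≠ i0) {y : M} (hy : y ∈ AddSubgroup.closure (C i)) :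
    y ∈ cpl C i0 := by
  refine AddSubgroup.closure_mono ?_ hy
  intro z hz
  exact ⟨i, hi, hz⟩

lemma comp_orth (hb : PD b) (h : CT b C s τ) {i j : Fin k} (hij : i ≠ j) {x y : M}
    (hx : x ∈ AddSubgroup.closure (C i)) (hy : y ∈ AddSubgroup.closure (C j)) : b x y = 0 :=
  hb.closure_orth (fun a ha c hc => h.orth i j hij a ha c hc) x hx y hy

/-- the product of a sum of components with a vector of one component -/
lemma sum_comp (hb : PD b) (h : CT b C s τ) {T : Fin k → M}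
    (hT : ∀ i, T i ∈ AddSubgroup.closure (C i)) (i0 : Fin k) {y : M}
    (hy : y ∈ AddSubgroup.closure (C i0)) : b (∑ i, T i) y = b (T i0) y := by
  rw [hb.sum_left, Finset.sum_eq_single i0]
  · intro i _ hi
    exact comp_orth hb h hi (hT i) hy
  · intro h0
    exact absurd (Finset.mem_univ i0) h0

/-- the rank of a type -/
lemma rk_of_big (h : CT b C s τ) {i : Fin k} (hi : (τ i).big) : 4 ≤ (τ i).rk := by
  have h1 := h.ty i
  cases e : τ i with
  | A m => rw [e] at hi; exact hi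
  | D m => rw [e] at hi; simp only [Ty.big] at hi; simp only [Ty.rk]; omega
  | E m =>
    rw [e] at h1
    simp only [HasTy] at h1
    simp only [Ty.rk]
    rcases h1.1 with h2 | h2 | h2 <;> omega

lemma rk_of_mid {t : Ty} (hi : t.mid) : 2 ≤ t.rk ∧ t.rk ≤ 4 := by
  cases t with
  | A m => simp only [Ty.mid] at hi; simp only [Ty.rk]; omega
  | D m => simp only [Ty.mid] at hi; simp only [Ty.rk]; omega
  | E m => exact absurd hi (by simp [Ty.mid])

lemma rk_of_md3 {t : Ty} (hi : t.md3) : 3 ≤ t.rk := by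
  cases t with
  | A m => simp only [Ty.md3] at hi; simp only [Ty.rk]; omega
  | D m => simp only [Ty.md3] at hi; simp only [Ty.rk]; omega
  | E m => exact absurd hi (by simp [Ty.md3])

lemma mid_of_md3 {t : Ty} (hi : t.md3) : t.mid := by
  cases t with
  | A m => exact Or.inr hi
  | D m => exact hi
  | E m => exact hi

lemma not_big_of_mid {t : Ty} (hi : t.mid) : ¬ t.big := by
  cases t with
  | A m => simp only [Ty.mid] at hi; simp only [Ty.big]; omega
  | D m => simp only [Ty.mid] at hi; simp only [Ty.big]; omega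
  | E m => exact absurd hi (by simp [Ty.mid])

/-- one component of rank at least 3, one of rank at least 2 and one even component -/
theorem core (hCMP : X_CMP) (hPAR : X_PAR) (hROOT : J_ROOT) (hJ1 : E_J1) (hJ2 : E_J2)
    (hNON : E_NON) (hN2 : E_N2) (hb : PD b) (h : CT b C s τ) (hbad : ¬ Bad b)
    {i0 i1 i2 : Fin k} (h01 : i0 ≠ i1) (h0 : ¬ (2 : ℤ) ∣ s i0) (hr0 : Rk (C i0) 3)
    (h1 : ¬ (2 : ℤ) ∣ s i1) (hr1 : Rk (C i1) 2) (h2 : (2 : ℤ) ∣ s i2) : False := by
  have h02 : i0 ≠ i2 := by rintro rfl; exact h0 h2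
  have h12 : i1 ≠ i2 := by rintro rfl; exact h1 h2
  have hr0' : Rk (C i0) 2 := by
    obtain ⟨c, hc, hl⟩ := hr0
    exact ⟨fun i => c (Fin.castLE (by norm_num : 2 ≤ 3) i), fun i => hc _,
      hl.comp _ (Fin.castLE_injective (by norm_num : 2 ≤ 3))⟩
  obtain ⟨β, hβ, γ, hγ, hβγ⟩ := hNON M b (C i0) (s i0) hb (h.irr i0) hr0'
  obtain ⟨α, hα, δ, hδ, hαδ⟩ := hNON M b (C i1) (s i1) hb (h.irr i1) hr1
  obtain ⟨ε, hε⟩ := (h.irr i2).ne
  have cβ : β ∈ AddSubgroup.closure (C i0) := AddSubgroup.subset_closure hβ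
  have cγ : γ ∈ AddSubgroup.closure (C i0) := AddSubgroup.subset_closure hγ
  have cα : α ∈ AddSubgroup.closure (C i1) := AddSubgroup.subset_closure hα
  have cδ : δ ∈ AddSubgroup.closure (C i1) := AddSubgroup.subset_closure hδ
  have cε : ε ∈ AddSubgroup.closure (C i2) := AddSubgroup.subset_closure hε
  have nβ := (h.irr i0).norm β hβ
  have nα := (h.irr i1).norm α hα
  have nε := (h.irr i2).norm ε hε
  have JRε : JR b (AddSubgroup.closure (C i2)) ε 2 fun _ _ => True := by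
    apply jr_of_jb
    apply hJ2 M b (C i2) ε hb cε ((hN2 M b (C i2) (s i2) hb (h.irr i2)).1 ε hε)
    rw [nε]; omega
  have JRα : JR b (AddSubgroup.closure (C i1)) α 1 fun _ _ => True := by
    apply jr_of_jb
    exact hJ1 M b (C i1) α hb cα ((hN2 M b (C i1) (s i1) hb (h.irr i1)).1 α hα)
  have JRβ := hROOT M b (C i0) (s i0) β hb (h.irr i0) h0 hβ
  let l : List (Tch k M) := [(i0, β, 1, fun ρ t =>
    (ρ = 2 * s i0 ∧ (t = β ∨ t = -β)) ∨ (ρ = 6 * s i0 ∧ b t β = 0 ∧ Rk (C i0) 2 ∧ ¬ Rk (C i0) 3)),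
    (i1, α, 1, fun _ _ => True), (i2, ε, 2, fun _ _ => True)]
  apply hbad
  refine hPAR M b (AddSubgroup.closure (C i0)) (cpl C i0) β (α + ε) β (s i0) (2 * s i0) hb
    (cpl_orth hb h i0) (cpl_sup h i0) cβ
    (AddSubgroup.add_mem _ (mem_cpl (Ne.symm h01) cα) (mem_cpl (Ne.symm h02) cε)) cβ
    (ne_of_gt (h.irr i0).pos) ⟨γ, cγ, by rw [hβγ]; exact h0⟩ ⟨δ, mem_cpl (Ne.symm h01) cδ, ?_⟩
    ?_ ?_ (dvd_refl _) ?_
  · rw [hb.add_left, hαδ, comp_orth hb h (Ne.symm h12) cε cδ, add_zero]; exact h1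
  · have e1 : b β (α + ε) = 0 := cpl_orth hb h i0 β cβ _
      (AddSubgroup.add_mem _ (mem_cpl (Ne.symm h01) cα) (mem_cpl (Ne.symm h02) cε))
    rw [norm_add_orth hb e1, norm_add_orth hb (comp_orth hb h h12 cα cε), nβ, nα, nε]
    omega
  · intro y hy
    have h3 : s i0 ∣ b y β := hb.closure_dvd (fun z hz => (h.irr i0).dvd z hz β hβ) y hy
    obtain ⟨m, hm⟩ := h3
    obtain ⟨u, hu⟩ : ∃ u, s i0 = 2 * u + 1 := by
      rcases Int.even_or_odd' (s i0) with ⟨u, hu | hu⟩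
      · exact absurd ⟨u, hu⟩ h0
      · exact ⟨u, hu⟩
    refine ⟨-(u * m), ?_⟩
    rw [hm]
    linear_combination (-(s i0 * m)) * hu
  · intro t ρ ht
    have ht' : NewR b (l.map fun a => a.2.1).sum t ρ := by
      have e : (l.map fun a => a.2.1).sum = β + (α + ε) := by
        simp [l]
      rw [e]; exact ht
    obtain ⟨_, T, rfl, hT, _, hl⟩ := hCMP M b k C s τ l t ρ hb h
      (by simp only [l, List.map_cons, List.map_nil, List.nodup_cons, List.mem_cons,
            List.not_mem_nil, or_false, not_or, not_false_iff, List.nodup_nil, and_true]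
          exact ⟨⟨h01, h02⟩, h12⟩)
      (by
        intro a ha
        simp only [l, List.mem_cons, List.not_mem_nil, or_false] at ha
        rcases ha with rfl | rfl | rfl
        · exact ⟨cβ, JRβ⟩
        · exact ⟨cα, JRα⟩
        · exact ⟨cε, JRε⟩)
      (by simp [l]) ht'
    have h3 := (hl _ (List.mem_cons_self ..)).2.2
    simp only at h3
    rw [sum_comp hb h hT i0 cβ]
    rcases h3 with ⟨_, h4 | h4⟩ | ⟨_, _, _, h4⟩
    · rw [h4, nβ]; simp
    · rw [h4, hb.neg_left, nβ]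
      exact ⟨-1, by ring⟩
    · exact absurd hr0 h4

end ct

theorem k_bme (hCMP : X_CMP) (hPAR : X_PAR) (hROOT : J_ROOT) (hJ1 : E_J1) (hJ2 : E_J2)
    (hNON : E_NON) (hN2 : E_N2) (hRK : T_RK) : K_BME := by
  intro M _ b k C s τ hb h hbad i0 i1 i2 h0 hbig h1 hmid h2
  have h01 : i0 ≠ i1 := by rintro rfl; exact not_big_of_mid hmid hbig
  refine core hCMP hPAR hROOT hJ1 hJ2 hNON hN2 hb h hbad h01 h0 ?_ h1 ?_ h2
  · refine (hRK M b (C i0) (s i0) (τ i0) hb (h.irr i0) (h.ty i0) 3).mpr ?_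
    have := rk_of_big h hbig
    omega
  · exact (hRK M b (C i1) (s i1) (τ i1) hb (h.irr i1) (h.ty i1) 2).mpr (rk_of_mid hmid).1

theorem k_mm3e (hCMP : X_CMP) (hPAR : X_PAR) (hROOT : J_ROOT) (hJ1 : E_J1) (hJ2 : E_J2)
    (hNON : E_NON) (hN2 : E_N2) (hRK : T_RK) : K_MM3E := by
  intro M _ b k C s τ hb h hbad i1 i2 i3 h12 h1 hmd3 h2 hmid h3
  refine core hCMP hPAR hROOT hJ1 hJ2 hNON hN2 hb h hbad h12 h1 ?_ h2 ?_ h3
  · exact (hRK M b (C i1) (s i1) (τ i1) hb (h.irr i1) (h.ty i1) 3).mpr (rk_of_md3 hmd3)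
  · exact (hRK M b (C i2) (s i2) (τ i2) hb (h.irr i2) (h.ty i2) 2).mpr (rk_of_mid hmid).1

end Pool.Agent.CN2.H88

end
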