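import Pool.Agent.Helper25_CN2.Stmts
import Pool.Agent.Helper25_CON.PDLem

/-!
Squad CN2, module X_GEN: the master criterion for bad 2-neighbours.
-/

noncomputable section

namespace Pool.Agent.CN2.H88

open Pool.Agent.H25Cong Pool.Agent.CON Pool.Agent.CN2

variable {M : Type} [AddCommGroup M] {b : M → M → ℤ}

lemma dv {a c d : ℤ} (h : a ∣ c) (e : d = c) : a ∣ d := by rw [e]; exact h

lemma exp_self (hb : PD b) (y x : M) (c : ℤ) :
    b ((2 : ℤ) • y - c • x) ((2 : ℤ) • y - c • x) =
      4 * b y y - 4 * c * b x y + c ^ 2 * b x x := by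
  rw [hb.sub_left, hb.sub_right, hb.sub_right, hb.zsmul_left, hb.zsmul_left, hb.zsmul_right,
    hb.zsmul_right, hb.zsmul_left, hb.zsmul_left, hb.zsmul_right, hb.zsmul_right, hb.symm y x]
  ring

/-- a root of the neighbour with an odd coefficient is a new root -/
lemma newR_of_odd (hb : PD b) {x : M} {k : ℤ} (hk : b x x = 8 * k + 4) {y0 : M}
    (hy0 : ¬ (2 : ℤ) ∣ b x y0) {t y : M} {j : ℤ}
    (ht : t = (2 : ℤ) • y - (2 * j - 1) • x) (hy : (2 : ℤ) ∣ b y x - (2 * j - 1)) (h0 : t ≠ 0)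
    (hr : ∀ s, InN b x s → b t t ∣ 2 * b t s) :
    t = x + (2 : ℤ) • (y - j • x) ∧ ∃ ρ, NewR b x t ρ := by
  have e : t = x + (2 : ℤ) • (y - j • x) := by
    rw [ht, smul_sub, smul_smul, sub_smul, one_zsmul]; abel
  refine ⟨e, ?_⟩
  obtain ⟨m, hm⟩ := hb.even y
  obtain ⟨u, hu⟩ := hy
  have hu' : b x y = 2 * u + (2 * j - 1) := by rw [hb.symm x y]; omega
  -- the norm is divisible by 8
  obtain ⟨r, h8⟩ : ∃ r : ℤ, b t t = 8 * r := by
    have h1 := exp_self hb y x (2 * j - 1)
    rw [← ht, hk, hm, hu'] at h1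
    exact ⟨m - (2 * j - 1) * u + k * (2 * j - 1) ^ 2, by rw [h1]; ring⟩
  have hpos := hb.pos t h0
  -- products with even vectors
  have hev : ∀ y', (2 : ℤ) ∣ b x y' → 2 * r ∣ b t y' := by
    intro y' hy'
    have h1 : InN b x ((2 : ℤ) • y') := ⟨y', 0, by rw [zero_smul, sub_zero], by
      rw [sub_zero, hb.symm]; exact hy'⟩
    have h2 := hr _ h1
    rw [hb.zsmul_right, h8] at h2
    have h3 : 4 * (2 * r) ∣ 4 * b t y' := by
      have e1 : 4 * (2 * r) = 8 * r := by ring
      have e2 : 4 * b t y' = 2 * (2 * b t y') := by ring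
      rw [e1, e2]; exact h2
    exact Int.dvd_of_mul_dvd_mul_left (by norm_num) h3
  -- r is odd
  have hodd : ¬ (2 : ℤ) ∣ r := by
    intro h2
    have h1 := hev ((2 : ℤ) • y0) (by rw [hb.zsmul_right]; exact dvd_mul_right _ _)
    rw [hb.zsmul_right] at h1
    have h3 : r ∣ b t y0 := Int.dvd_of_mul_dvd_mul_left (by norm_num) h1
    have h4 : b t y0 = b x y0 + 2 * b (y - j • x) y0 := by
      rw [e, hb.add_left, hb.zsmul_left]
    have h5 : (2 : ℤ) ∣ b x y0 := by
      have := dvd_trans h2 h3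
      rw [h4] at this
      omega
    exact hy0 h5
  refine ⟨2 * r, ⟨_, e⟩, by omega, by omega, by rw [h8]; ring, hev⟩

theorem x_gen : X_GEN := by
  intro M _ b x ω Q e0 hb hx hodd hQe h2 hnew hold hnt hrg
  obtain ⟨k, hk⟩ := hx
  obtain ⟨y0, hy0⟩ := hodd
  obtain ⟨k0', hk0'⟩ := h2
  -- k0 = - k0'
  obtain ⟨k0, hk0⟩ : ∃ k0 : ℤ, b x ω + e0 = -(2 * k0) := ⟨-k0', by rw [hk0']; ring⟩
  -- the subgroup
  let H : AddSubgroup M :=
    { carrier := {t | ∃ (y : M) (c : ℤ), t = (2 : ℤ) • y - c • x ∧ (2 : ℤ) ∣ b y x - c ∧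
        Q ∣ b y ω + k0 * c}
      zero_mem' := ⟨0, 0, by simp, by rw [hb.zero_left]; simp, by rw [hb.zero_left]; simp⟩
      add_mem' := by
        rintro _ _ ⟨y, c, rfl, h1, h2⟩ ⟨y', c', rfl, h1', h2'⟩
        refine ⟨y + y', c + c', by rw [smul_add, add_smul]; abel, ?_, ?_⟩
        · have := dvd_add h1 h1'
          rw [hb.add_left]
          exact dv this (by ring)
        · have := dvd_add h2 h2'
          rw [hb.add_left]
          exact dv this (by ring)
      neg_mem' := by
        rintro _ ⟨y, c, rfl, h1, h2⟩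
        refine ⟨-y, -c, by rw [smul_neg, neg_smul]; abel, ?_, ?_⟩
        · have := (dvd_neg).mpr h1
          rw [hb.neg_left]
          exact dv this (by ring)
        · have := (dvd_neg).mpr h2
          rw [hb.neg_left]
          exact dv this (by ring) }
  have hH : ∀ t ∈ AddSubgroup.closure
      {t : M | InN b x t ∧ t ≠ 0 ∧ ∀ s, InN b x s → b t t ∣ 2 * b t s}, t ∈ H := by
    intro t ht
    refine (AddSubgroup.closure_le H).mpr ?_ ht
    rintro t ⟨⟨y, c, hty, hyc⟩, h0, hr⟩
    rcases Int.even_or_odd' c with ⟨j, hj | hj⟩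
    · -- even
      have e : t = (2 : ℤ) • (y - j • x) := by
        rw [hty, hj, smul_sub, smul_smul]
      have hv0 : y - j • x ≠ 0 := by
        intro h
        rw [h, smul_zero] at e
        exact h0 e
      have hvx : (2 : ℤ) ∣ b x (y - j • x) := by
        rw [hb.sub_right, hb.zsmul_right, hk, hb.symm x y]
        rw [hj] at hyc
        have : j * (8 * k + 4) = 2 * (j * (4 * k + 2)) := by ring
        omega
      have hdv : ∀ y' c', (2 : ℤ) ∣ b y' x - c' →
          b (y - j • x) (y - j • x) ∣ 2 * b (y - j • x) y' - c' * b (y - j • x) x := by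
        intro y' c' hc
        have h1 := hr ((2 : ℤ) • y' - c' • x) ⟨y', c', rfl, hc⟩
        have e1 : b t t = 4 * b (y - j • x) (y - j • x) := by
          rw [e, hb.zsmul_left, hb.zsmul_right]; ring
        have e2 : b t ((2 : ℤ) • y' - c' • x) =
            2 * (2 * b (y - j • x) y' - c' * b (y - j • x) x) := by
          rw [e, hb.zsmul_left, hb.sub_right (y - j • x), hb.zsmul_right (2 : ℤ),
            hb.zsmul_right c']
        rw [e1, e2] at h1
        have h2 : 4 * b (y - j • x) (y - j • x) ∣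
            4 * (2 * b (y - j • x) y' - c' * b (y - j • x) x) := dv h1 (by ring)
        exact Int.dvd_of_mul_dvd_mul_left (by norm_num) h2
      have hQ := hold (y - j • x) hv0 hvx
        (fun y' hy' => by
          have := hdv y' 0 (by rw [sub_zero, hb.symm]; exact hy')
          simpa using this)
        (fun y' hy' => by
          have h1 : (2 : ℤ) ∣ b y' x - 1 := by
            rw [hb.symm y' x]; omega
          have := hdv y' 1 h1
          rwa [one_mul] at this)
      exact ⟨y - j • x, 0, by rw [zero_smul, sub_zero]; exact e, by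
        rw [sub_zero, hb.symm]; exact hvx, by rw [mul_zero, add_zero]; exact hQ⟩
    · -- odd
      have hc : c = 2 * (j + 1) - 1 := by rw [hj]; ring
      rw [hc] at hty hyc
      obtain ⟨e, ρ, hρ⟩ := newR_of_odd hb hk hy0 hty hyc h0 hr
      have h1 := hnew t ρ hρ
      refine ⟨y - (j + 1) • x, -1, ?_, ?_, ?_⟩
      · rw [neg_smul, one_zsmul, sub_neg_eq_add, add_comm]; exact e
      · rw [hb.sub_left, hb.zsmul_left, hk]
        have : (j + 1) * (8 * k + 4) = 2 * ((j + 1) * (4 * k + 2)) := by ring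
        omega
      · have h3 : b t ω = b x ω + 2 * b (y - (j + 1) • x) ω := by
          rw [e, hb.add_left, hb.zsmul_left]
        have h4 : 2 * Q ∣ 2 * (b (y - (j + 1) • x) ω + k0 * -1) := by
          have h5 : 2 * Q ∣ 2 * e0 := mul_dvd_mul_left 2 hQe
          have h6 := dvd_add h1 h5
          exact dv h6 (by rw [h3]; linarith)
        exact Int.dvd_of_mul_dvd_mul_left (by norm_num) h4
  obtain ⟨y1, hy1, hQ1⟩ := hnt
  have hin : InN b x ((2 : ℤ) • y1) := ⟨y1, 0, by rw [zero_smul, sub_zero], by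
    rw [sub_zero, hb.symm]; exact hy1⟩
  obtain ⟨y, c, hyc, hc2, hQ⟩ := hH _ (hrg _ hin)
  -- c is even
  have hce : (2 : ℤ) ∣ c := by
    have h1 : b ((2 : ℤ) • y1) y0 = b ((2 : ℤ) • y - c • x) y0 := by rw [hyc]
    rw [hb.zsmul_left, hb.sub_left, hb.zsmul_left, hb.zsmul_left] at h1
    have h2 : (2 : ℤ) ∣ c * b x y0 := ⟨b y y0 - b y1 y0, by linarith⟩
    rcases Int.prime_two.dvd_mul.mp h2 with h3 | h3
    · exact h3
    · exact absurd h3 hy0
  obtain ⟨j, rfl⟩ := hce
  have h1 : y1 = y - j • x := by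
    have h2 : (2 : ℤ) • (y1 - (y - j • x)) = 0 := by
      rw [smul_sub, hyc, smul_sub, smul_smul, sub_self]
    exact sub_eq_zero.mp (hb.zsmul_eq_zero (by norm_num) h2)
  apply hQ1
  have h2 : b y1 ω = (b y ω + k0 * (2 * j)) + j * e0 := by
    rw [h1, hb.sub_left, hb.zsmul_left]
    linear_combination (-j) * hk0
  rw [h2]
  exact dvd_add hQ (dvd_mul_of_dvd_right hQe j)

end Pool.Agent.CN2.H88

end
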