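import Pool.Agent.Helper88_CN2.XGen

/-!
Squad CN2, module X_PAR: two odd components.
-/

noncomputable section

namespace Pool.Agent.CN2.H88

open Pool.Agent.H25Cong Pool.Agent.CON Pool.Agent.CN2

variable {M : Type} [AddCommGroup M] {b : M → M → ℤ}

/-- new roots only depend on the class of x modulo 2 M -/
lemma newR_shift (hb : PD b) {x w t : M} {ρ : ℤ} (h : NewR b (x + (2 : ℤ) • w) t ρ) :
    NewR b x t ρ := by
  obtain ⟨⟨z, hz⟩, h1, h2, h3, h4⟩ := h
  refine ⟨⟨w + z, by rw [hz, smul_add]; abel⟩, h1, h2, h3, fun y hy => h4 y ?_⟩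
  rw [hb.add_left, hb.zsmul_left]
  exact dvd_add hy (dvd_mul_right _ _)

/-- the norm of x or of x + 2 y is 4 modulo 8 -/
lemma norm_shift (hb : PD b) {x y : M} (hx : (4 : ℤ) ∣ b x x) (hy : ¬ (2 : ℤ) ∣ b x y) :
    (∃ k : ℤ, b x x = 8 * k + 4) ∨
      ∃ k : ℤ, b (x + (2 : ℤ) • y) (x + (2 : ℤ) • y) = 8 * k + 4 := by
  obtain ⟨m, hm⟩ := hx
  obtain ⟨n, hn⟩ := hb.even y
  have e : b (x + (2 : ℤ) • y) (x + (2 : ℤ) • y) = b x x + 4 * b x y + 4 * b y y := by
    rw [hb.add_left, hb.add_right, hb.add_right, hb.zsmul_left, hb.zsmul_left, hb.zsmul_right,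
      hb.zsmul_right, hb.symm y x]
    ring
  rcases Int.even_or_odd' m with ⟨j, hj | hj⟩
  · right
    obtain ⟨u, hu⟩ : ∃ u, b x y = 2 * u + 1 := by
      rcases Int.even_or_odd' (b x y) with ⟨u, hu | hu⟩
      · exact absurd ⟨u, hu⟩ hy
      · exact ⟨u, hu⟩
    exact ⟨j + u + n, by rw [e, hm, hj, hu, hn]; ring⟩
  · left
    exact ⟨j, by rw [hm, hj]; ring⟩

/-- decomposition of the norm -/
lemma norm_add_orth (hb : PD b) {u v : M} (h : b u v = 0) :
    b (u + v) (u + v) = b u u + b v v := by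
  rw [hb.add_left, hb.add_right, hb.add_right, hb.symm v u, h]; ring

lemma par_core (hG : X_GEN) (hb : PD b) {S1 S2 : AddSubgroup M} {x1 x2 ω : M} {μ e0 k : ℤ}
    (ho : ∀ y ∈ S1, ∀ z ∈ S2, b y z = 0) (hS : S1 ⊔ S2 = ⊤) (hx1 : x1 ∈ S1) (hx2 : x2 ∈ S2)
    (hω : ω ∈ S1) (hμ : μ ≠ 0) (h1 : ∃ y ∈ S1, ¬ (2 : ℤ) ∣ b x1 y)
    (h2 : ∃ y ∈ S2, ¬ (2 : ℤ) ∣ b x2 y) (hk : b (x1 + x2) (x1 + x2) = 8 * k + 4)
    (hy : ∀ y ∈ S1, 2 * μ ∣ b y ω - μ * b y x1) (he : 2 * μ ∣ e0)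
    (hn : ∀ t ρ, NewR b (x1 + x2) t ρ → 4 * μ ∣ b t ω - e0) : Bad b := by
  refine ⟨x1 + x2, ⟨k, hk⟩, ?_⟩
  have hl : ∀ y ∈ S1, b (x1 + x2) y = b x1 y := fun y hy => by
    rw [hb.add_left, hb.symm x2, ho y hy x2 hx2, add_zero]
  have hr : ∀ y ∈ S2, b (x1 + x2) y = b x2 y := fun y hy => by
    rw [hb.add_left, ho x1 hx1 y hy, zero_add]
  have hev : 2 * μ ∣ b x1 ω := by
    obtain ⟨m, hm⟩ := hb.even x1
    have h3 := hy x1 hx1
    have h4 : 2 * μ ∣ μ * b x1 x1 := ⟨m, by rw [hm]; ring⟩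
    exact dv (dvd_add h3 h4) (by ring)
  obtain ⟨y1, hy1, hy1'⟩ := h1
  obtain ⟨y2, hy2, hy2'⟩ := h2
  apply hG M b (x1 + x2) ω (2 * μ) e0 hb ⟨k, hk⟩ ⟨y1, by rw [hl y1 hy1]; exact hy1'⟩ he
  · rw [hl ω hω]
    exact dvd_trans (dvd_mul_right 2 μ) (dvd_add hev he)
  · intro t ρ ht
    exact dvd_trans (dvd_of_eq (by ring)) (hn t ρ ht)
  · intro v hv0 hv hve _
    obtain ⟨v1, hv1, v2, hv2, rfl⟩ : ∃ v1 ∈ S1, ∃ v2 ∈ S2, v1 + v2 = v := by
      have : v ∈ S1 ⊔ S2 := by rw [hS]; exact AddSubgroup.mem_top v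
      exact AddSubgroup.mem_sup.mp this
    have e1 : b (v1 + v2) ω = b v1 ω := by
      rw [hb.add_left, hb.symm v2, ho ω hω v2 hv2, add_zero]
    rw [e1]
    have h3 := hy v1 hv1
    by_cases h4 : (2 : ℤ) ∣ b v1 x1
    · obtain ⟨m, hm⟩ := h4
      have h5 : 2 * μ ∣ μ * b v1 x1 := ⟨m, by rw [hm]; ring⟩
      exact dv (dvd_add h3 h5) (by ring)
    · exfalso
      have e2 : b (v1 + v2) x1 = b v1 x1 := by
        rw [hb.add_left, hb.symm v2, ho x1 hx1 v2 hv2, add_zero]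
      have e3 : b (v1 + v2) v1 = b v1 v1 := by
        rw [hb.add_left, hb.symm v2, ho v1 hv1 v2 hv2, add_zero]
      have e4 : b (v1 + v2) v2 = b v2 v2 := by
        rw [hb.add_left, ho v1 hv1 v2 hv2, zero_add]
      have e5 := norm_add_orth hb (ho v1 hv1 v2 hv2)
      have hR1 : b (v1 + v2) (v1 + v2) ∣ 2 * b v1 x1 := by
        have := hve x1 (by rw [hl x1 hx1]; exact hb.two_dvd x1)
        rwa [e2] at this
      have hR2 : b (v1 + v2) (v1 + v2) ∣ 4 * b v1 v1 := by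
        have := hve ((2 : ℤ) • v1) (by rw [hb.zsmul_right]; exact dvd_mul_right _ _)
        rw [hb.zsmul_right, e3] at this
        exact dv this (by ring)
      have hR3 : b (v1 + v2) (v1 + v2) ∣ 4 * b v2 v2 := by
        have := hve ((2 : ℤ) • v2) (by rw [hb.zsmul_right]; exact dvd_mul_right _ _)
        rw [hb.zsmul_right, e4] at this
        exact dv this (by ring)
      obtain ⟨R, hR⟩ := hb.even (v1 + v2)
      have hRp : 0 < R := by
        have := hb.pos _ hv0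
        omega
      rw [hR] at hR1 hR2 hR3 e5
      have hRo : ¬ (2 : ℤ) ∣ R := by
        intro h5
        have h6 : R ∣ b v1 x1 := Int.dvd_of_mul_dvd_mul_left (by norm_num) hR1
        exact h4 (dvd_trans h5 h6)
      have hodd2 : ¬ (2 : ℤ) ∣ b v2 x2 := by
        intro h5
        rw [hb.add_left, hb.add_right x1, hb.add_right x2, ho x1 hx1 v2 hv2,
          hb.symm x2 v1, ho v1 hv1 x2 hx2, hb.symm x1, hb.symm x2] at hv
        omega
      -- both norms are at least 2 R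
      have key : ∀ w : M, w ≠ 0 → 2 * R ∣ 4 * b w w → 2 * R ≤ b w w := by
        intro w hw h5
        obtain ⟨m, hm⟩ := hb.even w
        have hwp := hb.pos w hw
        have h6 : R ∣ 4 * m := by
          have : 2 * R ∣ 2 * (4 * m) := dv h5 (by rw [hm]; ring)
          exact Int.dvd_of_mul_dvd_mul_left (by norm_num) this
        have hco : IsCoprime R 4 := by
          have h7 : IsCoprime R 2 := by
            have : IsCoprime (2 : ℤ) R := (Prime.coprime_iff_not_dvd Int.prime_two).mpr hRo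
            exact this.symm
          have h8 := IsCoprime.mul_right h7 h7
          norm_num at h8
          exact h8
        have h7 : R ∣ m := hco.dvd_of_dvd_mul_left h6
        have h8 : R ≤ m := Int.le_of_dvd (by omega) h7
        omega
      have hv1' : v1 ≠ 0 := by
        rintro rfl
        exact h4 (by rw [hb.zero_left]; exact dvd_zero _)
      have hv2' : v2 ≠ 0 := by
        rintro rfl
        exact hodd2 (by rw [hb.zero_left]; exact dvd_zero _)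
      have a1 := key v1 hv1' hR2
      have a2 := key v2 hv2' hR3
      omega
  · refine ⟨y1 + y2, ?_, ?_⟩
    · rw [hb.add_right, hl y1 hy1, hr y2 hy2]
      omega
    · intro h3
      have e1 : b (y1 + y2) ω = b y1 ω := by
        rw [hb.add_left, hb.symm y2, ho ω hω y2 hy2, add_zero]
      rw [e1] at h3
      have h4 := dvd_sub h3 (hy y1 hy1)
      have h5 : μ * 2 ∣ μ * b y1 x1 := dvd_trans (dvd_of_eq (by ring)) (dv h4 (by ring))
      have h6 : (2 : ℤ) ∣ b y1 x1 := (mul_dvd_mul_iff_left hμ).mp h5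
      rw [hb.symm] at h6
      exact hy1' h6

theorem x_par (hG : X_GEN) : X_PAR := by
  intro M _ b S1 S2 x1 x2 ω μ e0 hb ho hS hx1 hx2 hω hμ h1 h2 h4 hy he hn
  obtain ⟨y1, hy1, hy1'⟩ := h1
  have hodd : ¬ (2 : ℤ) ∣ b (x1 + x2) y1 := by
    rw [hb.add_left, hb.symm x2, ho y1 hy1 x2 hx2, add_zero]; exact hy1'
  rcases norm_shift hb h4 hodd with ⟨k, hk⟩ | ⟨k, hk⟩
  · exact par_core hG hb ho hS hx1 hx2 hω hμ ⟨y1, hy1, hy1'⟩ h2 hk hy he hn
  · have e : x1 + x2 + (2 : ℤ) • y1 = x1 + (2 : ℤ) • y1 + x2 := by abel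
    rw [e] at hk
    refine par_core hG hb ho hS (S1.add_mem hx1 (S1.zsmul_mem hy1 2)) hx2 hω hμ
      ⟨y1, hy1, ?_⟩ h2 hk ?_ he ?_
    · rw [hb.add_left, hb.zsmul_left]
      omega
    · intro y hy3
      have h5 := hy y hy3
      have h6 : 2 * μ ∣ μ * (2 * b y y1) := ⟨b y y1, by ring⟩
      rw [hb.add_right, hb.zsmul_right]
      exact dv (dvd_sub h5 h6) (by ring)
    · intro t ρ ht
      rw [← e] at ht
      exact hn t ρ (newR_shift hb ht)

end Pool.Agent.CN2.H88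

end
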